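import Pool.Agent.R846.VF.F

/-!
# Almost no run of ordinates agrees with an element of a class of bounded complexity at a positive proportion of places

Let `0 < γ_1 ≤ γ_2 ≤ …` be the ordinates of the nontrivial zeros of the zeta function, with
multiplicity.  No hypothesis is assumed.  Fix `ρ > 0`, however small; then there is `δ = δ(ρ) > 0`
with the following property.  Let `D` be given, let `L` be large, `L log L ≤ log N`, and let
`W ⊆ ℝ^{L+1}` be *any* set (it may depend on `L` and `N`) such that the increments
`(i, j) ↦ w_j - w_i` of its elements have pseudo-dimension (Vapnik–Chervonenkis dimension of the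
subgraphs) at most `D`.  Then for almost all `n ≤ N` every `w ∈ W` satisfies
`|γ_{n+j} - w_j| > δ √(log L) / log γ_n` (that is, `δ √(log L) / 2π` mean spacings) for all but `ρ L`
of the places `0 ≤ j ≤ L`.  In particular `γ_{n+j} = w_j` for at most `ρ L` places `j`.

Every linear subspace of dimension at most `D` is such a set, for example a space of solutions of
`L + 1 - D` independent linear relations between `L + 1` consecutive ordinates, or the span of `D`
other runs of ordinates; further examples are the (nonlinear) families `w_j = f(a, x_j)`, `a ∈ ℝ^m`,
with a function `f` definable in an o-minimal structure and any sequence `x_j`.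

Idea of the proof.  If the set of the places of agreement has density `ρ`, then there are a distance
`a` (from a finite list of multiples of a small multiple of `L`) and a positive proportion of the `j`
for which `j` and `j + a` are such places, and averaging over the offsets one is led to the normalised
fluctuations `Z_k(t)` of the number of zeros of windows of length `a` at `K` equidistant positions.
By the mixed normal law for two far positions (`Pool.Agent.R321.QA.cfA`, `cfB`, helper321), for *all*
weights `|w_k| ≤ 1` the average of `w_k (e^{i ξ Z_k(t)} - e^{-ξ²/2})` is small for most `t`.  If the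
above happened for a positive proportion of the `t`, one could choose among these a large bounded
number `t_1, …, t_m`, one after the other (the weights being products of the characters at the heights
already chosen), such that the values `(Z_k(t_1), …, Z_k(t_m))`, as `k` varies, are distributed almost
like independent normal variables.  On the other hand let `w^1, …, w^m ∈ W` be the sequences belonging
to these heights.  The class dual to one of bounded Vapnik–Chervonenkis dimension has bounded
dimension as well; so by the Sauer–Shelah lemma the increments of `w^1, …, w^m` belonging to `k`,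
compared with the points of a grid, give only `O(m^C)` patterns as `k` varies.  The pattern determines
the numbers to which the `Z_k(t_i)` have to be near.  For a positive proportion of the `k` a positive
proportion of the `Z_k(t_i)` are near to the numbers so prescribed, but for each of the `O(m^C)`
prescriptions the proportion of such `k` is exponentially small in `m`.
-/

set_option autoImplicit false

namespace Pool.Agent.Results.MP_0ec205_nt.AgreementWithBoundedComplexity

/-- multiplicity of `s` as a zero of the Riemann zeta function (order of vanishing at `s`) -/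
noncomputable def zmult (s : ℂ) : ℕ := analyticOrderNatAt riemannZeta s

/-- the number of nontrivial zeros of `ζ` with ordinate in `(0, t]`, with multiplicity -/
noncomputable def NZ (t : ℝ) : ℕ :=
  ∑ᶠ s ∈ {s : ℂ | riemannZeta s = 0 ∧ 0 < s.re ∧ s.re < 1 ∧ 0 < s.im ∧ s.im ≤ t}, zmult s

/-- for `n ≥ 1`: the `n`-th positive ordinate `γ n` of a nontrivial zero of `ζ`, the ordinates being
listed in nondecreasing order and repeated according to multiplicity -/
noncomputable def γ (n : ℕ) : ℝ := sInf {t : ℝ | n ≤ NZ t}

/-- `IncDim D W`: the increments `(i, j) ↦ w_j - w_i` of the elements `w` of `W ⊆ ℝ^{L+1}` have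
pseudo-dimension at most `D`, that is: there are no `D + 1` pairs `(i_s, j_s)` and numbers `θ_s` such
that each of the `2^{D+1}` sets of indices `s` is the set of the `s` with `w_{j_s} - w_{i_s} > θ_s`
for some `w ∈ W` -/
def IncDim {L : ℕ} (D : ℕ) (W : Set (Fin (L + 1) → ℝ)) : Prop :=
  ¬ ∃ (i j : Fin (D + 1) → Fin (L + 1)) (θ : Fin (D + 1) → ℝ),
    ∀ S : Set (Fin (D + 1)), ∃ w ∈ W, ∀ s, s ∈ S ↔ θ s < w (j s) - w (i s)

/-- **Theorem** (no hypothesis).  (1) For all `ρ > 0` there is `δ > 0`, and for all `D` and `η > 0`
there is `L₀`, such that for all `L ≥ L₀`, all `N ≥ 1` with `L log L ≤ log N` and every set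
`W ⊆ ℝ^{L+1}` whose increments have pseudo-dimension at most `D`, at most `η N` of the indices
`n ≤ N` are such that some `w ∈ W` satisfies `|γ_{n+j} - w_j| ≤ δ √(log L) / log γ_n` for at least
`ρ L` of the places `0 ≤ j ≤ L`.
(2) The increments of the elements of a linear subspace of `ℝ^{L+1}` of dimension at most `D` have
pseudo-dimension at most `D`. -/
theorem result :
    (∀ ρ : ℝ, 0 < ρ → ∃ δ : ℝ, 0 < δ ∧ ∀ (D : ℕ) (η : ℝ), 0 < η → ∃ L₀ : ℕ,
      ∀ L : ℕ, L₀ ≤ L → ∀ N : ℕ, 1 ≤ N → L * Real.log L ≤ Real.log N →
      ∀ W : Set (Fin (L + 1) → ℝ), IncDim D W →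
      ({n : ℕ | 1 ≤ n ∧ n ≤ N ∧ ∃ w ∈ W, ρ * L ≤
        (({j : Fin (L + 1) | |γ (n + j) - w j| ≤ δ * Real.sqrt (Real.log L) / Real.log (γ n)} :
          Set (Fin (L + 1))).ncard : ℝ)}.ncard : ℝ) ≤ η * N) ∧
    (∀ (L D : ℕ) (V : Submodule ℝ (Fin (L + 1) → ℝ)), Module.finrank ℝ V ≤ D →
      IncDim D (V : Set (Fin (L + 1) → ℝ))) :=
  ⟨fun _ρ hρ => Pool.Agent.R846.VF.fin_w hρ, fun _L _D V hV => Pool.Agent.R846.VF.sub_dim V hV⟩

end Pool.Agent.Results.MP_0ec205_nt.AgreementWithBoundedComplexity
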