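import Pool.Agent.R846.SP.D

/-!
# In almost all runs the ordinates are far from every linear recurrent sequence of bounded order

Let `0 < γ_1 ≤ γ_2 ≤ …` be the ordinates of the nontrivial zeros of the zeta function, with
multiplicity.  No hypothesis is assumed.  For every order `k` and every `M`, however large, almost no
run of `L + 1` consecutive ordinates `γ_n, …, γ_{n+L}` (`L` large, `L log L ≤ log n`) is approximated
within `M √(log L)` times the mean spacing by a real sequence `y` satisfying a linear recurrence
`c_0 y_j + … + c_k y_{j+k} = b` (`c ≠ 0`).  The sequence and the recurrence may depend on `n`.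

Idea of the proof (decimation).  Let `m = L / 4`, let `y` be the recurrent sequence in the scale of
the mean spacing and `H(j) = y_{j+m} - y_j - m`.  Then `H` satisfies a recurrence of order `k + 1`,
and hence, for every `r ≥ 1`, the terms of `H` along a progression of difference `r` satisfy a
recurrence of the same order, whose coefficients may be very unequal; but taking the largest one,
`|H(j)| ≤ (k+1) max |H(j ± i r)|` over `1 ≤ i ≤ k+1`.  By the normal law along almost all runs
(`Pool.Agent.R321.QA.quenched`, helper321), `|H| ≤ C √(log m)` except for a small proportion of the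
indices; so for every `j` in the middle part there is `r` such that all the indices `j ± i r` are
good, and `|H(j)| ≤ (k+1) C √(log m)` for every `j` in the middle part, which contradicts the normal
law there.
-/

set_option autoImplicit false

namespace Pool.Agent.Results.MP_0ec205_nt.FarFromRecurrences

/-- multiplicity of `s` as a zero of the Riemann zeta function (order of vanishing at `s`) -/
noncomputable def zmult (s : ℂ) : ℕ := analyticOrderNatAt riemannZeta s

/-- the number of nontrivial zeros of `ζ` with ordinate in `(0, t]`, with multiplicity -/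
noncomputable def NZ (t : ℝ) : ℕ :=
  ∑ᶠ s ∈ {s : ℂ | riemannZeta s = 0 ∧ 0 < s.re ∧ s.re < 1 ∧ 0 < s.im ∧ s.im ≤ t}, zmult s

/-- for `n ≥ 1`: the `n`-th positive ordinate `γ n` of a nontrivial zero of `ζ`, the ordinates being
listed in nondecreasing order and repeated according to multiplicity -/
noncomputable def γ (n : ℕ) : ℝ := sInf {t : ℝ | n ≤ NZ t}

/-- `y 0, …, y L` satisfy a linear recurrence with real coefficients `c 0, …, c k`, not all zero, and
constant term `b` -/
def RecSeq (k L : ℕ) (y : ℕ → ℝ) : Prop :=
  ∃ c : Fin (k + 1) → ℝ, c ≠ 0 ∧ ∃ b : ℝ, ∀ j, j + k ≤ L → ∑ i : Fin (k + 1), c i * y (j + i) = b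

/-- **Theorem** (no hypothesis).  For all `k`, `M` and `η > 0` there is `L₀` such that for all
`L ≥ L₀` and all `N ≥ 1` with `L log L ≤ log N`, at most `η N` of the indices `n ≤ N` have the
property that some real sequence `y` satisfying a linear recurrence of order `k` on `{0, …, L}`
satisfies `|γ_{n+j} - y_j| ≤ M √(log L) / log γ_n` for all `0 ≤ j ≤ L`. -/
theorem result (k : ℕ) (M η : ℝ) (hη : 0 < η) : ∃ L₀ : ℕ, ∀ L : ℕ, L₀ ≤ L → ∀ N : ℕ, 1 ≤ N →
    L * Real.log L ≤ Real.log N →
    ({n : ℕ | 1 ≤ n ∧ n ≤ N ∧ ∃ y : ℕ → ℝ, RecSeq k L y ∧ ∀ j ≤ L,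
      |γ (n + j) - y j| ≤ M * Real.sqrt (Real.log L) / Real.log (γ n)}.ncard : ℝ) ≤ η * N :=
  Pool.Agent.R846.SP.rec_main k M hη

end Pool.Agent.Results.MP_0ec205_nt.FarFromRecurrences
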