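import Pool.Agent.R846.VS.K

/-!
# Almost no run of ordinates is near a given space of bounded dimension

Let `0 < γ_1 ≤ γ_2 ≤ …` be the ordinates of the nontrivial zeros of the zeta function, with
multiplicity.  No hypothesis is assumed.  Fix `k` and `M`, however large.  Let `L` be large,
`L log L ≤ log N`, and let `V ⊆ ℝ^{L+1}` be *any* real vector space of dimension at most `k` (it may
depend on `L` and `N`).  Then for all but a small proportion of the `n ≤ N` the vector
`(γ_n, …, γ_{n+L})` is, in the maximum norm, at distance more than `M √(log L)` mean spacings from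
`V`.  In particular, for every space `R` of linear relations with real coefficients between `L + 1`
consecutive ordinates, of dimension at least `L + 1 - k`, some relation of `R` fails at almost
every `n`: the space of relations which hold at `n` for a positive proportion of the `n ≤ N` has
unbounded codimension.

Idea of the proof.  In terms of heights `t` let `Z_k(t)` be the normalised fluctuations of the
number of zeros of windows of length `a = L / 2` at `K` equidistant positions.  By the mixed normal
law for two far positions (`Pool.Agent.R321.QA.cfA`, `cfB`, helper321), for *all* weights `|w_k| ≤ 1`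
the average of `w_k (e^{i ξ Z_k(t)} - e^{-ξ²/2})` is small for most `t`.  If the vectors `Z(t)` were
near a fixed `κ`-dimensional space for a positive proportion of the `t`, one could choose among
these `t_0, …, t_κ`, one after the other (the weights being products of the characters at the heights
already chosen), such that the values `(Z_k(t_0), …, Z_k(t_κ))`, as `k` varies, are distributed almost
like `κ + 1` independent normal variables.  But some combination `∑ θ_i Z(t_i)` with `max |θ_i| = 1`
is bounded, a contradiction.  Finally one passes from heights to indices `n` by means of the shifts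
of the sequences, over which the theorem is uniform.
-/

set_option autoImplicit false

namespace Pool.Agent.Results.MP_0ec205_nt.FarFromSubspaces

/-- multiplicity of `s` as a zero of the Riemann zeta function (order of vanishing at `s`) -/
noncomputable def zmult (s : ℂ) : ℕ := analyticOrderNatAt riemannZeta s

/-- the number of nontrivial zeros of `ζ` with ordinate in `(0, t]`, with multiplicity -/
noncomputable def NZ (t : ℝ) : ℕ :=
  ∑ᶠ s ∈ {s : ℂ | riemannZeta s = 0 ∧ 0 < s.re ∧ s.re < 1 ∧ 0 < s.im ∧ s.im ≤ t}, zmult s

/-- for `n ≥ 1`: the `n`-th positive ordinate `γ n` of a nontrivial zero of `ζ`, the ordinates being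
listed in nondecreasing order and repeated according to multiplicity -/
noncomputable def γ (n : ℕ) : ℝ := sInf {t : ℝ | n ≤ NZ t}

/-- **Theorem** (no hypothesis).  For all `k`, `M` and `η > 0` there is `L₀` such that for all
`L ≥ L₀` and all `N ≥ 1` with `L log L ≤ log N`:

* for every linear subspace `V` of `ℝ^{L+1}` of dimension at most `k`, at most `η N` of the indices
  `n ≤ N` are such that some `w ∈ V` satisfies `|γ_{n+j} - w_j| ≤ M √(log L) / log γ_n` for all
  `0 ≤ j ≤ L`;
* for every space `R ⊆ ℝ^{L+1}` of relations, of dimension at least `L + 1 - k`, at most `η N` of the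
  indices `n ≤ N` are such that `∑ a_j γ_{n+j} = 0` for all `a ∈ R`. -/
theorem result (k : ℕ) (M η : ℝ) (hη : 0 < η) : ∃ L₀ : ℕ, ∀ L : ℕ, L₀ ≤ L → ∀ N : ℕ, 1 ≤ N →
    L * Real.log L ≤ Real.log N →
    (∀ V : Submodule ℝ (Fin (L + 1) → ℝ), Module.finrank ℝ V ≤ k →
      ({n : ℕ | 1 ≤ n ∧ n ≤ N ∧ ∃ w ∈ V, ∀ j : Fin (L + 1),
        |γ (n + j) - w j| ≤ M * Real.sqrt (Real.log L) / Real.log (γ n)}.ncard : ℝ) ≤ η * N) ∧
    (∀ R : Submodule ℝ (Fin (L + 1) → ℝ), L + 1 ≤ Module.finrank ℝ R + k →
      ({n : ℕ | 1 ≤ n ∧ n ≤ N ∧ ∀ a ∈ R, ∑ j : Fin (L + 1), a j * γ (n + j) = 0}.ncard : ℝ) ≤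
        η * N) :=
  Pool.Agent.R846.VS.vs_rel k M hη

end Pool.Agent.Results.MP_0ec205_nt.FarFromSubspaces
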