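import Pool.Agent.R846.UL.Main
import Pool.Agent.R846.UL.MainI

/-!
# Almost no bounded run of consecutive ordinates satisfies a linear recurrence

Let `0 < γ_1 ≤ γ_2 ≤ …` be the ordinates of the nontrivial zeros of the zeta function, with
multiplicity.  No hypothesis is assumed.  For every order `k` and every `η > 0` there are `ε > 0` and
`L` such that, for all large `N` and for all `n ≤ N` with at most `η N` exceptions, the ordinates
`γ_n, …, γ_{n+L+k-1}` satisfy no linear recurrence

`c_0 γ_m + … + c_{k-1} γ_{m+k-1} = b`   (`n ≤ m ≤ n + L`)

even up to an error `ε / log γ_n`; here the real coefficients `c_j`, one of them of modulus at least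
`1`, and the real number `b` are arbitrary and may depend on `n`.  The same holds for the ordinates
following `t`, for all `t ∈ [T, 2T]` outside a set of measure `η T`.

Idea of the proof.  For a polynomial `c` in the shift operator `S` write `c (X - 1)² = (X - 1)^r D`
with `D` prime to `X - 1`; by Bézout the unfolded ordinates are `y = G + V(S) (gaps)`, where
`(S - 1)^r G` is small on the run if the relation holds, so that `G` is nearly a polynomial on the
run.  As the sums of `j m` consecutive gaps are `j m + o(m)` for most `n` (`m` large), this
polynomial is nearly linear with slope one at distance much smaller than `m`, so that the sum of `a`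
consecutive gaps differs from `a` by at most a bounded quantity, where `a` can be taken as large as
one likes.  By the normal law for sums of gaps (unconditional: Selberg's method) this is rare.  To
allow coefficients depending on `n` one divides the coefficient vectors into countably many levels
according to the size of `V` and of the Bézout multiplier; the exceptional sets depend on the level
only, they can be made summable, and by compactness of the unit sphere finitely many levels suffice.
-/

set_option autoImplicit false

open Filter MeasureTheory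

namespace Pool.Agent.Results.MP_0ec205_nt.NoLocalRecurrence

/-- multiplicity of `s` as a zero of the Riemann zeta function (order of vanishing at `s`) -/
noncomputable def zmult (s : ℂ) : ℕ := analyticOrderNatAt riemannZeta s

/-- the number of nontrivial zeros of `ζ` with ordinate in `(0, t]`, with multiplicity -/
noncomputable def NZ (t : ℝ) : ℕ :=
  ∑ᶠ s ∈ {s : ℂ | riemannZeta s = 0 ∧ 0 < s.re ∧ s.re < 1 ∧ 0 < s.im ∧ s.im ≤ t}, zmult s

/-- for `n ≥ 1`: the `n`-th positive ordinate `γ n` of a nontrivial zero of `ζ`, the ordinates being
listed in nondecreasing order and repeated according to multiplicity -/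
noncomputable def γ (n : ℕ) : ℝ := sInf {t : ℝ | n ≤ NZ t}

/-- the ordinates from `γ n` on satisfy, for `L + 1` consecutive indices and up to an error less than
`e`, a linear relation with `k` coefficients, one of them of modulus at least `1` -/
def Recurrence (k L : ℕ) (e : ℝ) (n : ℕ) : Prop :=
  ∃ c : Fin k → ℝ, (∃ j, 1 ≤ |c j|) ∧ ∃ b : ℝ, ∀ m : ℕ, n ≤ m → m ≤ n + L →
    |∑ j : Fin k, c j * γ (m + j) - b| < e

/-- **Theorem** (no hypothesis).  For all `k` and `η > 0`:

* there are `ε > 0`, `L` and `N₀` such that for all `N ≥ N₀` at most `η N` of the indices `n ≤ N`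
  satisfy `Recurrence k L (ε / log γ_n) n`;
* there are `ε > 0`, `L` and `T₀` such that for all `T ≥ T₀` the set of the `t ∈ [T, 2T]` for which
  `Recurrence k L (ε / log T)` holds at the index `NZ t` has measure at most `η T`. -/
theorem result (k : ℕ) (η : ℝ) (hη : 0 < η) :
    (∃ (ε : ℝ) (L N₀ : ℕ), 0 < ε ∧ ∀ N : ℕ, N₀ ≤ N →
      ({n : ℕ | 1 ≤ n ∧ n ≤ N ∧ Recurrence k L (ε / Real.log (γ n)) n}.ncard : ℝ) ≤ η * N) ∧
    (∃ (ε : ℝ) (L : ℕ) (T₀ : ℝ), 0 < ε ∧ ∀ T : ℝ, T₀ ≤ T →
      volume {t : ℝ | t ∈ Set.Icc T (2 * T) ∧ Recurrence k L (ε / Real.log T) (NZ t)} ≤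
        ENNReal.ofReal (η * T)) := by
  constructor
  · exact Pool.Agent.R846.UL.local_mainI k hη
  · obtain ⟨ε, L, T₀, hε, h⟩ := Pool.Agent.R846.UL.local_main k hη
    refine ⟨ε, L, T₀, hε, fun T hT => le_trans (measure_mono ?_) (h T hT)⟩
    rintro t ⟨h1, h2⟩
    exact ⟨h2, h1⟩

end Pool.Agent.Results.MP_0ec205_nt.NoLocalRecurrence
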